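import Mathlib
import Pool.Agent.Q184.PI.Main

set_option autoImplicit false

namespace Pool.Agent.Results.MP_d4114f_an.Composition

open Pool.Agent.Q184.PI

universe u v w z

/-- For every topological group `G` (in particular every Polish group) and all affine `G`-flows
`K`, `L`, `P`, the composition of two proximally irreducible affine extensions `φ : L → K` and
`ψ : P → L` is proximally irreducible. -/
theorem result {G : Type v} [Group G] [TopologicalSpace G] (K : AffineFlow.{w} G)
    (L : AffineFlow.{u} G) (P : AffineFlow.{z} G) (φ : Ext L K) (ψ : Ext P L) (hφ : ProxIrr φ)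
    (hψ : ProxIrr ψ) : ProxIrr (φ.comp ψ) :=
  proxIrr_comp φ ψ hφ hψ

end Pool.Agent.Results.MP_d4114f_an.Composition
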